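import Mathlib
import Pool.Agent.Y659.MPS.Stm

/-!
Facts on the matrices `G(s) = m X^s t`.
-/

namespace Pool.Agent.Y641.MPS

open Matrix
open Pool.Agent.Y659.MPS

/-- values of integer powers of a unit -/
lemma zv_add {R : Type*} [Ring R] (u : Rˣ) (a b : ℤ) :
    ((u ^ (a + b) : Rˣ) : R) = ((u ^ a : Rˣ) : R) * ((u ^ b : Rˣ) : R) := by
  rw [_root_.zpow_add]; simp

lemma zv_nat {R : Type*} [Ring R] (u : Rˣ) (n : ℕ) :
    ((u ^ (n : ℤ) : Rˣ) : R) = (u : R) ^ n := by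
  rw [_root_.zpow_natCast]; simp

lemma zv_neg {R : Type*} [Ring R] (u : Rˣ) (n : ℕ) :
    ((u ^ (-(n : ℤ)) : Rˣ) : R) = ((u⁻¹ : Rˣ) : R) ^ n := by
  rw [← _root_.inv_zpow', _root_.zpow_natCast]; simp

/-- moving a power of `u` through `x m` -/
lemma mov {R : Type*} [Ring R] (u : Rˣ) (x m : R) (p : ℕ)
    (h : (u : R) ^ p * x * m = m * x * (u : R) ^ p) (r : ℤ) :
    m * x * ((u ^ r : Rˣ) : R) = (u : R) ^ p * x * m * ((u ^ (r - p) : Rˣ) : R) := by
  have e : r = (p : ℤ) + (r - p) := by ring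
  conv_lhs => rw [e, zv_add, zv_nat, ← mul_assoc, ← h]

theorem KLG : Pool.Agent.Y659.MPS.St_KLG := by
  intro D W u x y m t v₁ v₂ p q la lb hxy hL ht1 ht2
  have hkill : ∀ l : Matrix (Fin D) (Fin D) ℂ, (l = x ∨ l = y) →
      ∀ a : Matrix (Fin D) (Fin D) ℂ, a * l = 0 → a * t = 0 := by
    intro l hl a ha
    rcases hl with hl | hl
    · rw [ht1, ← mul_assoc, ← hl, ha, zero_mul]
    · rw [ht2, ← mul_assoc, ← hl, ha, zero_mul]
  have hcan : ∀ (n : ℕ) (a : Matrix (Fin D) (Fin D) ℂ),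
      (u : Matrix (Fin D) (Fin D) ℂ) ^ n * a = 0 → a = 0 := by
    intro n a ha
    have h1 : ((u ^ (-(n : ℤ)) : (Matrix (Fin D) (Fin D) ℂ)ˣ) : Matrix (Fin D) (Fin D) ℂ) *
        ((u : Matrix (Fin D) (Fin D) ℂ) ^ n * a) = 0 := by rw [ha, mul_zero]
    rw [← zv_nat, ← mul_assoc, ← zv_add] at h1
    simpa using h1
  have cx := hL.cx
  have cy := hL.cy
  have gx : ∀ (j : ℕ) (s : ℤ), (1 : ℤ) ≤ j →
      (((u⁻¹ : (Matrix (Fin D) (Fin D) ℂ)ˣ) : Matrix (Fin D) (Fin D) ℂ) ^ (j - 1)) *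
        ((u ^ (s - 1) : (Matrix (Fin D) (Fin D) ℂ)ˣ) : Matrix (Fin D) (Fin D) ℂ) =
        ((u ^ (s - j) : (Matrix (Fin D) (Fin D) ℂ)ˣ) : Matrix (Fin D) (Fin D) ℂ) := by
    intro j s hj
    rw [← zv_neg, ← zv_add]
    congr 2
    have : ((j - 1 : ℕ) : ℤ) = (j : ℤ) - 1 := by
      rw [Nat.cast_sub (by exact_mod_cast hj)]; simp
    rw [this]; ring
  refine ⟨?_, ?_, ?_, ?_⟩
  · intro s
    unfold G
    have e : s = 1 + (s - 1) := by ring
    have e1 : ((u ^ s : (Matrix (Fin D) (Fin D) ℂ)ˣ) : Matrix (Fin D) (Fin D) ℂ) =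
        (x + y) * ((u ^ (s - 1) : (Matrix (Fin D) (Fin D) ℂ)ˣ) : Matrix (Fin D) (Fin D) ℂ) := by
      conv_lhs => rw [e, zv_add]
      rw [zpow_one, hxy]
    have mx := mov u x m p cx (s - 1)
    have my := mov u y m q cy (s - 1)
    rw [e1, add_mul, mul_add, ← mul_assoc, ← mul_assoc, mx, my]
    have a1 : s - 1 - (p : ℤ) = s - (p + 1) := by ring
    have a2 : s - 1 - (q : ℤ) = s - (q + 1) := by ring
    rw [a1, a2]
    simp only [add_mul, mul_assoc]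
  · intro s h1 h2
    apply hcan p
    unfold G
    have hh : (u : Matrix (Fin D) (Fin D) ℂ) ^ p *
        (x * (m * ((u ^ (-(s : ℤ)) : (Matrix (Fin D) (Fin D) ℂ)ˣ) : Matrix (Fin D) (Fin D) ℂ) * t))
        = m * x * (u : Matrix (Fin D) (Fin D) ℂ) ^ (p - s) * t := by
      have mx := mov u x m p cx ((p : ℤ) - s)
      have a1 : (p : ℤ) - s - p = -(s : ℤ) := by ring
      rw [a1] at mx
      have a2 : (p : ℤ) - s = ((p - s : ℕ) : ℤ) := by
        rw [Nat.cast_sub h2]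
      rw [a2, zv_nat] at mx
      rw [mx]
      simp only [mul_assoc]
    rw [hh]
    have hlt : p - s < p := by omega
    obtain ⟨hl, _, h4⟩ := hL.ha (p - s) hlt
    exact hkill _ hl _ h4
  · intro s h1 h2
    apply hcan q
    unfold G
    have hh : (u : Matrix (Fin D) (Fin D) ℂ) ^ q *
        (y * (m * ((u ^ (-(s : ℤ)) : (Matrix (Fin D) (Fin D) ℂ)ˣ) : Matrix (Fin D) (Fin D) ℂ) * t))
        = m * y * (u : Matrix (Fin D) (Fin D) ℂ) ^ (q - s) * t := by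
      have mx := mov u y m q cy ((q : ℤ) - s)
      have a1 : (q : ℤ) - s - q = -(s : ℤ) := by ring
      rw [a1] at mx
      have a2 : (q : ℤ) - s = ((q - s : ℕ) : ℤ) := by
        rw [Nat.cast_sub h2]
      rw [a2, zv_nat] at mx
      rw [mx]
      simp only [mul_assoc]
    rw [hh]
    have hlt : q - s < q := by omega
    obtain ⟨hl, _, h4⟩ := hL.hb (q - s) hlt
    exact hkill _ hl _ h4
  · intro c cxy cyy α β hR s
    obtain ⟨_, _, hR⟩ := hR
    have h0 := congrArg (fun A : Matrix (Fin D) (Fin D) ℂ =>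
      A * ((u ^ (s - 1) : (Matrix (Fin D) (Fin D) ℂ)ˣ) : Matrix (Fin D) (Fin D) ℂ) * t) hR
    simp only [zero_mul] at h0
    rw [← h0]
    have mx := mov u x m p cx (s - 1)
    have my := mov u y m q cy (s - 1)
    have a1 : s - 1 - (p : ℤ) = s - (p + 1) := by ring
    have a2 : s - 1 - (q : ℤ) = s - (q + 1) := by ring
    rw [a1] at mx
    rw [a2] at my
    have k1 : (u : Matrix (Fin D) (Fin D) ℂ) ^ (p + 1) * x * G u m t (s - (p + 1)) =
        ((u : Matrix (Fin D) (Fin D) ℂ) * m * x) *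
          ((u ^ (s - 1) : (Matrix (Fin D) (Fin D) ℂ)ˣ) : Matrix (Fin D) (Fin D) ℂ) * t := by
      have : ((u : Matrix (Fin D) (Fin D) ℂ) * m * x) *
          ((u ^ (s - 1) : (Matrix (Fin D) (Fin D) ℂ)ˣ) : Matrix (Fin D) (Fin D) ℂ) * t =
          (u : Matrix (Fin D) (Fin D) ℂ) * (m * x *
          ((u ^ (s - 1) : (Matrix (Fin D) (Fin D) ℂ)ˣ) : Matrix (Fin D) (Fin D) ℂ)) * t := by
        simp only [mul_assoc]
      rw [this, mx, pow_succ']
      unfold G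
      simp only [mul_assoc]
    have k2 : ∀ z : Matrix (Fin D) (Fin D) ℂ,
        z * (u : Matrix (Fin D) (Fin D) ℂ) ^ q * y * G u m t (s - (q + 1)) =
        (z * m * y) *
          ((u ^ (s - 1) : (Matrix (Fin D) (Fin D) ℂ)ˣ) : Matrix (Fin D) (Fin D) ℂ) * t := by
      intro z
      have : (z * m * y) *
          ((u ^ (s - 1) : (Matrix (Fin D) (Fin D) ℂ)ˣ) : Matrix (Fin D) (Fin D) ℂ) * t =
          z * (m * y *
          ((u ^ (s - 1) : (Matrix (Fin D) (Fin D) ℂ)ˣ) : Matrix (Fin D) (Fin D) ℂ)) * t := by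
        simp only [mul_assoc]
      rw [this, my]
      unfold G
      simp only [mul_assoc]
    have k3 : ∀ (z : Matrix (Fin D) (Fin D) ℂ) (j : ℕ), 1 ≤ j →
        (u : Matrix (Fin D) (Fin D) ℂ) ^ j * z * G u m t (s - j) =
        ((u : Matrix (Fin D) (Fin D) ℂ) ^ j * z * m *
          ((u⁻¹ : (Matrix (Fin D) (Fin D) ℂ)ˣ) : Matrix (Fin D) (Fin D) ℂ) ^ (j - 1)) *
          ((u ^ (s - 1) : (Matrix (Fin D) (Fin D) ℂ)ˣ) : Matrix (Fin D) (Fin D) ℂ) * t := by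
      intro z j hj
      have := gx j s (by exact_mod_cast hj)
      have e : ((u : Matrix (Fin D) (Fin D) ℂ) ^ j * z * m *
          ((u⁻¹ : (Matrix (Fin D) (Fin D) ℂ)ˣ) : Matrix (Fin D) (Fin D) ℂ) ^ (j - 1)) *
          ((u ^ (s - 1) : (Matrix (Fin D) (Fin D) ℂ)ˣ) : Matrix (Fin D) (Fin D) ℂ) * t =
          (u : Matrix (Fin D) (Fin D) ℂ) ^ j * z * m *
          (((u⁻¹ : (Matrix (Fin D) (Fin D) ℂ)ˣ) : Matrix (Fin D) (Fin D) ℂ) ^ (j - 1) *
          ((u ^ (s - 1) : (Matrix (Fin D) (Fin D) ℂ)ˣ) : Matrix (Fin D) (Fin D) ℂ)) * t := by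
        simp only [mul_assoc]
      rw [e, this]
      unfold G
      simp only [mul_assoc]
    have k4 : (cxy • x + cyy • y) * (u : Matrix (Fin D) (Fin D) ℂ) ^ q * y *
        G u m t (s - (q + 1)) =
        (cxy • (x * m * y) + cyy • (y * m * y)) *
          ((u ^ (s - 1) : (Matrix (Fin D) (Fin D) ℂ)ˣ) : Matrix (Fin D) (Fin D) ℂ) * t := by
      rw [k2]
      simp only [add_mul, smul_mul_assoc]
    have k5 : ∀ (z : Matrix (Fin D) (Fin D) ℂ) (n : ℕ) (γ : ℕ → ℂ),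
        ∑ j ∈ Finset.Icc 1 n, γ j • ((u : Matrix (Fin D) (Fin D) ℂ) ^ j * z * G u m t (s - j)) =
        (∑ j ∈ Finset.Icc 1 n, γ j • ((u : Matrix (Fin D) (Fin D) ℂ) ^ j * z * m *
          ((u⁻¹ : (Matrix (Fin D) (Fin D) ℂ)ˣ) : Matrix (Fin D) (Fin D) ℂ) ^ (j - 1))) *
          ((u ^ (s - 1) : (Matrix (Fin D) (Fin D) ℂ)ˣ) : Matrix (Fin D) (Fin D) ℂ) * t := by
      intro z n γ
      rw [Finset.sum_mul, Finset.sum_mul]
      refine Finset.sum_congr rfl fun j hj => ?_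
      rw [k3 z j (Finset.mem_Icc.mp hj).1, smul_mul_assoc, smul_mul_assoc]
    rw [k1, k4, k5, k5]
    simp only [add_mul, smul_mul_assoc]
    abel

end Pool.Agent.Y641.MPS
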